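import Mathlib
import Pool.Agent.Lib.helper10.Dist

namespace Pool.Agent.Results.MP_a310d2_co.Comb
open SimpleGraph Finset

/-- some shortest u-v path has no internal vertex in S. -/
def Visible {V : Type} (G : SimpleGraph V) (S : Set V) (u v : V) : Prop :=
  ∃ p : G.Walk u v, p.length = G.dist u v ∧ ∀ w ∈ p.support, w ∈ S → w = u ∨ w = v

def Outer {V : Type} (G : SimpleGraph V) (S : Set V) : Prop := ∀ u ∈ S, ∀ v, Visible G S u v

/-- the outer mutual-visibility number. -/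
noncomputable def muO {V : Type} (G : SimpleGraph V) : ℕ :=
  sSup {n | ∃ S : Finset V, Outer G S ∧ S.card = n}

lemma block {V : Type} {G : SimpleGraph V} {S : Set V} (h : Outer G S) {u s v : V} (hu : u ∈ S)
    (hs : s ∈ S) (h1 : s ≠ u) (h2 : s ≠ v) (h3 : u ≠ v)
    (h4 : ∀ w, G.Adj v w → w = s ∨ G.dist u v ≤ G.dist u w) : False := by
  obtain ⟨p, p1, p2⟩ := h u hu v
  have n := Walk.not_nil_of_ne (p := p) h3
  have k := G.dist_le p.dropLast
  rw [Walk.length_dropLast] at k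
  have := Walk.not_nil_iff_lt_length.mp n
  rcases h4 _ (p.adj_penultimate n).symm with e | e
  · exact (p2 s (e ▸ p.getVert_mem_support _) hs).elim h1 h2
  · omega

lemma leaves {V : Type} {G : SimpleGraph V} (hc : G.Connected) {S : Set V}
    (h : ∀ s ∈ S, ∀ a b, G.Adj s a → G.Adj s b → a = b) : Outer G S := by
  intro u _ v
  obtain ⟨p, p1, p2⟩ := hc.exists_path_of_dist u v
  refine ⟨p, p2, fun w hw hs => ?_⟩
  obtain ⟨i, rfl, hi⟩ := Walk.mem_support_iff_exists_getVert.mp hw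
  by_contra n
  push Not at n
  obtain _ | i := i
  · simp at n
  have l : i + 1 < p.length := lt_of_le_of_ne hi fun e => n.2 (by simp [e])
  have := p1.getVert_injOn (by simp; omega) (by simp; omega)
    (h _ hs _ _ (p.adj_getVert_succ (i := i) (by omega)).symm (p.adj_getVert_succ l))
  omega

variable (M : ℕ)

abbrev W : Type := Option (Fin (M + 3) × Fin (M + 3))

def R : W M → W M → Prop
  | some x, some y => (x.1 = y.1 ∧ x.2.val + 1 = y.2) ∨
      (x.2.val = 0 ∧ y.2.val = 0 ∧ x.1.val + 1 = y.1)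
  | some x, none => x.2.val = M + 2
  | _, _ => False

def G : SimpleGraph (W M) where
  Adj a b := R M a b ∨ R M b a
  symm := ⟨fun _ _ => Or.symm⟩
  loopless := ⟨by rintro (_ | _) <;> simp [R]⟩

def D : W M → W M → ℕ
  | some x, some y => if x.1 = y.1 then (x.2.val - y.2) + (y.2.val - x.2) else
      min (x.2.val + ((x.1.val - y.1) + (y.1.val - x.1)) + y.2) (2 * (M + 3) - x.2 - y.2)
  | some x, none => M + 3 - x.2
  | none, some y => M + 3 - y.2
  | none, none => 0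

lemma down (u v : W M) (h : v ≠ u) : ∃ w, (G M).Adj v w ∧ D M w u + 1 = D M v u := by
  rcases v with _ | ⟨⟨j, j1⟩, ⟨b, b1⟩⟩ <;> rcases u with _ | ⟨⟨i, i1⟩, ⟨a, a1⟩⟩
  · simp at h
  · exact ⟨some (⟨i, i1⟩, ⟨M + 2, by simp⟩), by simp [G, R], by simp [D]; omega⟩
  · by_cases c : b = M + 2
    · exact ⟨none, by simp [G, R, c], by simp [D]; omega⟩
    · exact ⟨some (⟨j, j1⟩, ⟨b + 1, by omega⟩), by simp [G, R], by simp [D]; omega⟩
  · simp only [ne_eq, Option.some.injEq, Prod.mk.injEq, Fin.mk.injEq] at h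
    by_cases c : (j = i ∧ b < a) ∨ (j ≠ i ∧ 2 * (M + 3) - b - a ≤ b + ((j - i) + (i - j)) + a)
    · by_cases c2 : b = M + 2
      · exact ⟨none, by simp [G, R, c2], by simp [D]; split_ifs <;> omega⟩
      · exact ⟨some (⟨j, j1⟩, ⟨b + 1, by omega⟩), by simp [G, R], by simp [D]; split_ifs <;> omega⟩
    · by_cases c2 : b = 0
      · by_cases c3 : i < j
        · exact ⟨some (⟨j - 1, by omega⟩, ⟨0, by omega⟩), by simp [G, R, c2]; omega,
            by simp [D]; split_ifs <;> omega⟩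
        · exact ⟨some (⟨j + 1, by omega⟩, ⟨0, by omega⟩), by simp [G, R, c2],
            by simp [D]; split_ifs <;> omega⟩
      · exact ⟨some (⟨j, j1⟩, ⟨b - 1, by omega⟩), by simp [G, R]; omega,
          by simp [D]; split_ifs <;> omega⟩

lemma hd (u v : W M) : (G M).dist u v = D M v u := by
  rw [dist_comm]
  refine Pool.Agent.Lib.helper10.Dist.dist_eq (G M) (D M) ?_ ?_ (down M) u v
  · rintro (_ | _) <;> simp [D]
  · rintro (_ | ⟨⟨i, i1⟩, ⟨a, a1⟩⟩) (_ | ⟨⟨j, j1⟩, ⟨b, b1⟩⟩) (_ | ⟨⟨l, l1⟩, ⟨c, c1⟩⟩) <;>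
      simp [G, R, D] <;> (try split_ifs) <;> omega

lemma conn : (G M).Connected :=
  Pool.Agent.Lib.helper10.Dist.conn_of _ none (fun v => D M v none) fun v h =>
    (down M none v h).imp fun _ e => ⟨e.1, by omega⟩

lemma conn' : ((G M).induce {none}ᶜ).Connected := by
  refine Pool.Agent.Lib.helper10.Dist.conn_of _ ⟨some (0, 0), by simp⟩
    (fun v => v.1.elim 0 fun x => x.1 + x.2) ?_
  rintro ⟨_ | ⟨⟨j, j1⟩, ⟨b, b1⟩⟩, hv⟩ h
  · simp at hv
  simp only [ne_eq, Subtype.mk.injEq, Option.some.injEq, Prod.mk.injEq, Fin.ext_iff,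
    Fin.val_zero] at h
  by_cases c : b = 0
  · exact ⟨⟨some (⟨j - 1, by omega⟩, ⟨0, by omega⟩), by simp⟩, by simp [G, R, c]; omega,
      by simp; omega⟩
  · exact ⟨⟨some (⟨j, j1⟩, ⟨b - 1, by omega⟩), by simp⟩, by simp [G, R]; omega, by simp; omega⟩

section
variable {M} {S : Set (W M)} (h : Outer (G M) S)
include h

lemma up {x y : Fin (M + 3) × Fin (M + 3)} (hx : some x ∈ S) (hy : some y ∈ S)
    (c : (x.1 = y.1 ∧ x.2 < y.2) ∨ (x.1 ≠ y.1 ∧
      2 * x.2.val + ((x.1.val - y.1) + (y.1.val - x.1)) + 2 * y.2.val + 3 ≤ 2 * (M + 3))) : False := by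
  obtain ⟨⟨i, i1⟩, ⟨a, a1⟩⟩ := x
  obtain ⟨⟨j, j1⟩, ⟨b, b1⟩⟩ := y
  simp only [ne_eq, Fin.mk.injEq, Fin.mk_lt_mk] at c
  by_cases e : b = M + 2
  · refine block h hx hy (v := none) (by simp; omega) (by simp) (by simp) ?_
    rintro (_ | ⟨⟨l, l1⟩, ⟨d, d1⟩⟩) <;> simp only [hd] <;> simp only [G, R, D, Option.some.injEq,
      Prod.mk.injEq, Fin.mk.injEq, false_or, or_false, reduceCtorEq, false_imp_iff]
    split_ifs <;> omega
  · refine block h hx hy (v := some (⟨j, j1⟩, ⟨b + 1, by omega⟩)) (by simp; omega) (by simp)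
      (by simp; omega) ?_
    rintro (_ | ⟨⟨l, l1⟩, ⟨d, d1⟩⟩) <;> simp only [hd] <;> simp only [G, R, D, Option.some.injEq,
      Prod.mk.injEq, Fin.mk.injEq, reduceCtorEq, Nat.add_one_ne_zero] <;> split_ifs <;>
      simp only [false_and, and_false, false_or, or_false] <;> omega

lemma dn {x y : Fin (M + 3) × Fin (M + 3)} (hx : some x ∈ S) (hy : some y ∈ S) (c : x.1 ≠ y.1)
    (c1 : 2 ≤ y.2.val)
    (c2 : 2 * (M + 3) + 3 ≤ 2 * x.2.val + ((x.1.val - y.1) + (y.1.val - x.1)) + 2 * y.2.val) :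
    False := by
  obtain ⟨⟨i, i1⟩, ⟨a, a1⟩⟩ := x
  obtain ⟨⟨j, j1⟩, ⟨b, b1⟩⟩ := y
  simp only [ne_eq, Fin.mk.injEq] at c c1 c2
  refine block h hx hy (v := some (⟨j, j1⟩, ⟨b - 1, by omega⟩)) (by simp; omega) (by simp; omega)
    (by simp; omega) ?_
  rintro (_ | ⟨⟨l, l1⟩, ⟨d, d1⟩⟩) <;> simp only [hd] <;> simp only [G, R, D, Option.some.injEq,
      Prod.mk.injEq, Fin.mk.injEq, reduceCtorEq, false_or, or_false] <;> split_ifs <;> omega

lemma pair {x y : Fin (M + 3) × Fin (M + 3)} (hx : some x ∈ S) (hy : some y ∈ S)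
    (c : x.1.val < y.1) : 2 * (M + 3) + x.1 ≤ 2 * x.2.val + y.1.val + 2 * y.2.val + 2 ∧
      2 * x.2.val + y.1.val + 2 * y.2.val ≤ 2 * (M + 3) + 2 + x.1 := by
  have n : x.1 ≠ y.1 := fun e => by simp [e] at c
  have := y.1.2
  refine ⟨not_lt.mp fun e => up h hx hy (.inr ⟨n, by omega⟩), not_lt.mp fun e => ?_⟩
  by_cases k : 2 ≤ y.2.val
  · exact dn h hx hy n k (by omega)
  · exact dn h hy hx n.symm (by omega) (by omega)
end

lemma small (S : Finset (W M)) (h : Outer (G M) S) : S.card ≤ 12 := by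
  let T := univ.filter fun x : Fin (M + 3) × Fin (M + 3) => some x ∈ S
  have h1 : S ⊆ insert none (T.image some) := by
    rintro (_ | x) hx <;> simp [T, hx]
  refine (card_le_card h1).trans ((card_insert_le _ _).trans (Nat.succ_le_succ
    (card_image_le.trans ?_)))
  rcases T.eq_empty_or_nonempty with e | e
  · simp [e]
  obtain ⟨x, x1, x2⟩ := exists_min_image T (fun x => x.1.val) e
  obtain ⟨z, z1, z2⟩ := exists_max_image T (fun x => x.1.val) e
  have inj : ∀ s ∈ T, ∀ t ∈ T, s.1.val = t.1.val → s = t := by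
    intro s hs t ht e
    have e := Fin.ext e
    refine Prod.ext e (le_antisymm (not_lt.mp fun l => ?_) (not_lt.mp fun l => ?_))
    · exact up h (mem_filter.mp ht).2 (mem_filter.mp hs).2 (.inl ⟨e.symm, l⟩)
    · exact up h (mem_filter.mp hs).2 (mem_filter.mp ht).2 (.inl ⟨e, l⟩)
  have h2 : ((T.erase x).erase z).card ≤ 9 := by
    rcases ((T.erase x).erase z).eq_empty_or_nonempty with e | e
    · simp [e]
    obtain ⟨y, y1, y2⟩ := exists_min_image _ (fun x => x.1.val) e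
    have mid : ∀ s ∈ (T.erase x).erase z, s ∈ T ∧ x.1.val < s.1 ∧ s.1.val < z.1 := by
      intro s hs
      rw [mem_erase, mem_erase] at hs
      exact ⟨hs.2.2, lt_of_le_of_ne (x2 s hs.2.2) fun e => hs.2.1 (inj _ x1 _ hs.2.2 e).symm,
        lt_of_le_of_ne (z2 s hs.2.2) fun e => hs.1 (inj _ hs.2.2 _ z1 e)⟩
    refine (card_le_card_of_injOn (t := Icc y.1.val (y.1.val + 8)) (fun s => s.1.val)
      (fun s hs => ?_) fun s hs t ht => inj s (mid s hs).1 t (mid t ht).1).trans (by simp; omega)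
    have k := y2 s hs
    obtain ⟨s1, s2, s3⟩ := mid s hs
    obtain ⟨t1, t2, t3⟩ := mid y y1
    simp only [T, mem_filter, mem_univ, true_and] at s1 t1 x1 z1
    refine mem_coe.mpr (mem_Icc.mpr ⟨k, not_lt.mp fun l => ?_⟩)
    have l' : y.1.val + 9 ≤ s.1.val := l
    linarith [(pair h x1 z1 (s2.trans s3)).2, (pair h x1 s1 s2).1, (pair h s1 z1 s3).1,
      (pair h x1 t1 t2).1, (pair h t1 z1 t3).1, (pair h t1 s1 (by omega)).2]
  have := pred_card_le_card_erase (s := T) (a := x)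
  have := pred_card_le_card_erase (s := T.erase x) (a := z)
  omega

lemma big : M + 3 ≤ muO ((G M).induce {none}ᶜ) := by
  classical
  refine le_csSup ⟨_, by rintro _ ⟨S, -, rfl⟩; exact card_le_univ S⟩
    ⟨univ.image fun i : Fin (M + 3) => ⟨some (i, ⟨M + 2, by simp⟩), by simp⟩,
      leaves (conn' M) ?_, by rw [card_image_of_injective _ fun i j e => by simpa using e]; simp⟩
  simp only [coe_image, coe_univ, Set.image_univ, Set.forall_mem_range]
  rintro ⟨i, i1⟩ ⟨_ | ⟨⟨j, j1⟩, ⟨b, b1⟩⟩, hv⟩ ⟨_ | ⟨⟨l, l1⟩, ⟨c, c1⟩⟩, hw⟩ <;>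
    simp [G, R] at hv hw ⊢
  omega

theorem result : ¬ ∃ a b : ℝ, ∀ (V : Type) [Finite V] (G : SimpleGraph V) (x : V),
    G.Connected → (G.induce {x}ᶜ).Connected → (muO (G.induce {x}ᶜ) : ℝ) ≤ a * muO G + b := by
  rintro ⟨a, b, h⟩
  obtain ⟨M, hM⟩ := exists_nat_gt (|a| * 12 + b)
  have h1 := h _ (G M) none (conn M) (conn' M)
  have h2 : (muO (G M) : ℝ) ≤ 12 := by
    exact_mod_cast csSup_le' (by rintro _ ⟨S, k, rfl⟩; exact small M S k)
  have h3 : (M + 3 : ℝ) ≤ muO ((G M).induce {none}ᶜ) := by exact_mod_cast big M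
  have h4 := mul_le_mul (le_abs_self a) h2 (by positivity) (abs_nonneg a)
  linarith

end Pool.Agent.Results.MP_a310d2_co.Comb
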